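import Pool.Agent.TH30.Ord.Stable

/-! Explicit lower bounds, and densities. -/

set_option autoImplicit false
set_option linter.all false

namespace Pool.Agent.TH30.Ord

open NumberField IsDedekindDomain Polynomial Filter Topology
open Pool.Agent.W401.Cheb Pool.Agent.W528.Ord
open Pool.Agent.W528.Ord.MultSystem (mv IsDeg1 IsOver)

section

variable {K : Type} [Field K] [NumberField K] {ℓ : ℕ} [Fact ℓ.Prime]

theorem ncard_eq_sum {α : Type} [Fintype α] (s : Set α) [DecidablePred (· ∈ s)] :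
    s.ncard = ∑ a : α, (if a ∈ s then 1 else 0) := by
  classical
  rw [← Finset.sum_filter, Finset.sum_const, smul_eq_mul, mul_one, ← Set.ncard_coe_finset]
  congr 1
  ext σ
  simp

section fixed

variable {A : MultSystem K ℓ} {χ : GK K →* (PadicAlgCl ℓ)ˣ} {S : Finset ℕ} (hA : A.IsAbelian χ S)
  {v : HeightOneSpectrum (𝓞 K)} (hv : IsDeg1 S v)
  {Q : Ideal (𝓞 (AlgebraicClosure K))} (hQ : IsOver Q v)

include hA hv hQ in
theorem ncard_r (j : ℕ) : {σ : A.E →+* AlgebraicClosure K | j ≤ A.r σ}.ncard =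
    {σ : A.E →+* AlgebraicClosure K | j ≤ unitRank A v Q σ}.ncard + (failing A v Q j).ncard := by
  classical
  rw [ncard_eq_sum, ncard_eq_sum, ncard_eq_sum, ← Finset.sum_add_distrib]
  apply Finset.sum_congr rfl
  intro σ _
  have h1 := unitRank_le hA hv hQ σ
  have h2 : σ ∈ failing A v Q j ↔ unitRank A v Q σ < j ∧ j ≤ A.r σ := Iff.rfl
  simp only [Set.mem_setOf_eq, h2]
  split_ifs <;> omega

theorem hodgeDefect_one (A : MultSystem K ℓ) : hodgeDefect A 1 =
    2 * ({σ : A.E →+* AlgebraicClosure K | 1 ≤ A.r σ}.ncard : ℤ) - Module.finrank ℚ A.E := by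
  classical
  rw [ncard_eq_sum]
  have h : (Module.finrank ℚ A.E : ℤ) = ∑ σ : A.E →+* AlgebraicClosure K, (1 : ℤ) := by
    rw [Finset.sum_const, Finset.card_univ, NumberField.Embeddings.card]
    simp
  rw [h]
  unfold hodgeDefect
  push_cast
  rw [Finset.mul_sum, ← Finset.sum_sub_distrib]
  apply Finset.sum_congr rfl
  intro σ _
  simp only [Set.mem_setOf_eq]
  split_ifs with h1
  · have : (1 - A.r σ : ℕ) = 0 := by omega
    rw [this]
    norm_num
  · have : (1 - A.r σ : ℕ) = 1 := by omega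
    rw [this]
    norm_num

theorem hodgeDefect_two (A : MultSystem K ℓ) : hodgeDefect A 2 =
    2 * ({σ : A.E →+* AlgebraicClosure K | 2 ≤ A.r σ}.ncard : ℤ) -
    2 * ({σ : A.E →+* AlgebraicClosure K | A.r σ = 0}.ncard : ℤ) := by
  classical
  rw [ncard_eq_sum, ncard_eq_sum]
  unfold hodgeDefect
  push_cast
  rw [Finset.mul_sum, Finset.mul_sum, ← Finset.sum_sub_distrib]
  apply Finset.sum_congr rfl
  intro σ _
  simp only [Set.mem_setOf_eq]
  split_ifs with h1 h2 h2
  · omega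
  · have : (2 - A.r σ : ℕ) = 0 := by omega
    rw [this]
    norm_num
  · have : (2 - A.r σ : ℕ) = 2 := by omega
    rw [this]
    norm_num
  · have : (2 - A.r σ : ℕ) = 1 := by omega
    rw [this]
    norm_num

include hA hv hQ in
/-- more than half of the embeddings have a nonzero part of the `p`-rank -/
theorem half_lt (h : 2 * ((failing A v Q 1).ncard : ℤ) < hodgeDefect A 1) :
    Module.finrank ℚ A.E < 2 * {σ : A.E →+* AlgebraicClosure K | 1 ≤ unitRank A v Q σ}.ncard := by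
  rw [hodgeDefect_one, ncard_r hA hv hQ] at h
  push_cast at h
  omega

include hA hv hQ in
theorem zeros_lt (h : 2 * ((failing A v Q 2).ncard : ℤ) < hodgeDefect A 2) :
    {σ : A.E →+* AlgebraicClosure K | A.r σ = 0}.ncard <
      {σ : A.E →+* AlgebraicClosure K | 2 ≤ unitRank A v Q σ}.ncard := by
  rw [hodgeDefect_two, ncard_r hA hv hQ] at h
  push_cast at h
  omega

theorem sum_ge (A : MultSystem K ℓ) (v : HeightOneSpectrum (𝓞 K)) (Q : Ideal (𝓞 (AlgebraicClosure K))) :
    {σ : A.E →+* AlgebraicClosure K | 1 ≤ unitRank A v Q σ}.ncard +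
    {σ : A.E →+* AlgebraicClosure K | 2 ≤ unitRank A v Q σ}.ncard ≤
    ∑ σ : A.E →+* AlgebraicClosure K, unitRank A v Q σ := by
  classical
  rw [ncard_eq_sum, ncard_eq_sum, ← Finset.sum_add_distrib]
  apply Finset.sum_le_sum
  intro σ _
  simp only [Set.mem_setOf_eq]
  split_ifs <;> omega

end fixed

/-- the explicit lower bound for the part of the `p`-rank which comes from `A`: half the degree of the
field of multiplications, and, if `3 ≤ n`, the number of embeddings at which all Hodge slopes are `1` -/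
noncomputable def lowerBound (A : MultSystem K ℓ) : ℕ :=
  Module.finrank ℚ A.E / 2 + 1 +
    (if 3 ≤ A.n then {σ : A.E →+* AlgebraicClosure K | A.r σ = 0}.ncard + 1 else 0)

section family

variable {ι : Type} [Fintype ι] (A : ι → MultSystem K ℓ) (m : ι → ℕ) (χ : GK K →* (PadicAlgCl ℓ)ˣ)
  (S : Finset ℕ) (hA : ∀ i, (A i).IsAbelian χ S)

include hA in
theorem explicit {v : HeightOneSpectrum (𝓞 K)} (hv : GoodPlace A S v)
    {Q : Ideal (𝓞 (AlgebraicClosure K))} (hQ : IsOver Q v)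
    (hind : ∀ i, ∃ σ₀, 0 < (A i).r σ₀ ∧ (A i).r σ₀ < (A i).n) (G : ℤ[X])
    (hG : G.map (Int.castRingHom (AlgebraicClosure K)) = MultSystem.prodPoly A m v) :
    ∑ i, m i * lowerBound (A i) ≤ pRank (Ideal.absNorm v.asIdeal) G := by
  rw [pRank_eq A m χ S hA hv.1 hQ G hG]
  apply Finset.sum_le_sum
  intro i _
  apply Nat.mul_le_mul_left
  obtain ⟨σ₀, h0, h1⟩ := hind i
  have h2 := half_lt (hA i) hv.1 hQ (hv.2 i ⟨σ₀, h0, h1⟩ 1 one_pos (by omega) Q hQ)
  have h3 := sum_ge (A i) v Q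
  unfold lowerBound
  split_ifs with h4
  · have h5 := zeros_lt (hA i) hv.1 hQ (hv.2 i ⟨σ₀, h0, h1⟩ 2 two_pos (by omega) Q hQ)
    omega
  · omega

include hA in
/-- the places with Frobenius elements which behave like `γ₀` have positive density -/
theorem like_dens (γ₀ : GK K) : ∃ δ : ℝ, 0 < δ ∧
    Tendsto (dens fun v : HeightOneSpectrum (𝓞 K) => ∃ γ : GK K, IsFrob v γ ∧
      ∀ i j, stableMax (A i) γ j ≤ stableMax (A i) γ₀ j) atTop (𝓝 δ) := by
  haveI := MultSystem.fixU_normal A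
  haveI : Finite (GK K ⧸ MultSystem.fixU A) :=
    Subgroup.quotient_finite_of_isOpen _ (MultSystem.fixU_open A)
  have h := chebK K (MultSystem.fixU A) (MultSystem.fixU_open A)
    {γ | ∀ i j, stableMax (A i) γ j ≤ stableMax (A i) γ₀ j}
    (fun σ hσ τ i j => (stableMax_conj (hA i).r_inv σ τ j).trans (hσ i j))
    (fun σ hσ u hu i j => (stableMax_fix A i hu j).trans (hσ i j))
  refine ⟨(((QuotientGroup.mk : GK K → GK K ⧸ MultSystem.fixU A) ''
      {γ | ∀ i j, stableMax (A i) γ j ≤ stableMax (A i) γ₀ j}).ncard : ℝ) /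
    (Nat.card (GK K ⧸ MultSystem.fixU A) : ℝ), ?_, ?_⟩
  · apply div_pos
    · have : 0 < ((QuotientGroup.mk : GK K → GK K ⧸ MultSystem.fixU A) ''
          {γ | ∀ i j, stableMax (A i) γ j ≤ stableMax (A i) γ₀ j}).ncard := by
        rw [Set.ncard_pos (Set.toFinite _)]
        exact ⟨_, γ₀, fun i j => le_refl _, rfl⟩
      exact_mod_cast this
    · exact_mod_cast Nat.card_pos
  · have e : (fun v : HeightOneSpectrum (𝓞 K) => ∃ σ ∈ {γ : GK K | ∀ i j, stableMax (A i) γ j ≤
        stableMax (A i) γ₀ j}, IsFrob v σ) =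
        fun v => ∃ γ : GK K, IsFrob v γ ∧ ∀ i j, stableMax (A i) γ j ≤ stableMax (A i) γ₀ j := by
      funext v
      apply propext
      constructor
      · rintro ⟨σ, h1, h2⟩
        exact ⟨σ, h2, h1⟩
      · rintro ⟨σ, h1, h2⟩
        exact ⟨σ, h2, h1⟩
    rw [e] at h
    exact h

include hA in
theorem lower_K (γ₀ : GK K) : ∃ δ : ℝ, 0 < δ ∧ ∀ᶠ N : ℕ in atTop, δ ≤ dens (fun v =>
    GoodPlace A S v ∧ ∃ γ : GK K, IsFrob v γ ∧ ∀ i j, stableMax (A i) γ j ≤ stableMax (A i) γ₀ j) N := by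
  obtain ⟨δ, hδ, hlim⟩ := like_dens A χ S hA γ₀
  have h1 := dens_good A χ S hA
  refine ⟨δ / 2, by positivity, ?_⟩
  have e0 := hlim.eventually (lt_mem_nhds (show 3 * δ / 4 < δ by linarith))
  have e1 := h1.eventually (gt_mem_nhds (show (0:ℝ) < δ / 4 by positivity))
  filter_upwards [e0, e1] with N h0 h1
  have hle : dens (fun v : HeightOneSpectrum (𝓞 K) => ∃ γ : GK K, IsFrob v γ ∧
      ∀ i j, stableMax (A i) γ j ≤ stableMax (A i) γ₀ j) N ≤
      dens (fun v => GoodPlace A S v ∧ ∃ γ : GK K, IsFrob v γ ∧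
        ∀ i j, stableMax (A i) γ j ≤ stableMax (A i) γ₀ j) N +
      dens (fun v => ¬ GoodPlace A S v) N := by
    refine le_trans (dens_mono ?_ N) (dens_or _ _ N)
    intro v hv
    by_cases hg : GoodPlace A S v
    · exact Or.inl ⟨hg, hv⟩
    · exact Or.inr hg
  linarith

end family

end

end Pool.Agent.TH30.Ord
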