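import Pool.Agent.TH30.Ord.UnitRank

/-! The `p`-rank is the sum of its parts; the density theorem. -/

set_option autoImplicit false
set_option linter.all false

namespace Pool.Agent.TH30.Ord

open NumberField IsDedekindDomain Polynomial Filter Topology
open Pool.Agent.W401.Cheb Pool.Agent.W528.Ord
open Pool.Agent.W528.Ord.MultSystem (mv IsDeg1 IsOver)

theorem natTrailingDegree_map_inj {R T : Type*} [CommRing R] [CommRing T] (f : R →+* T)
    (hf : Function.Injective f) (P : Polynomial R) : (P.map f).natTrailingDegree = P.natTrailingDegree := by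
  by_cases hP : P = 0
  · rw [hP, Polynomial.map_zero, natTrailingDegree_zero, natTrailingDegree_zero]
  have hP' : P.map f ≠ 0 := (Polynomial.map_ne_zero_iff hf).mpr hP
  apply le_antisymm
  · apply natTrailingDegree_le_of_ne_zero
    rw [coeff_map]
    intro h
    rw [← map_zero f] at h
    exact hP (trailingCoeff_eq_zero.mp (hf h))
  · apply natTrailingDegree_le_of_ne_zero
    intro h
    apply hP'
    apply trailingCoeff_eq_zero.mp
    unfold trailingCoeff
    rw [coeff_map, h, map_zero]

section

variable {K : Type} [Field K] [NumberField K] {ℓ : ℕ} [Fact ℓ.Prime]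

section family

variable {ι : Type} [Fintype ι] (A : ι → MultSystem K ℓ) (m : ι → ℕ) (χ : GK K →* (PadicAlgCl ℓ)ˣ)
  (S : Finset ℕ) (hA : ∀ i, (A i).IsAbelian χ S)

include hA in
/-- **the `p`-rank is the sum of the `σ`-parts** -/
theorem pRank_eq {v : HeightOneSpectrum (𝓞 K)} (hv : IsDeg1 S v)
    {Q : Ideal (𝓞 (AlgebraicClosure K))} (hQ : IsOver Q v) (G : ℤ[X])
    (hG : G.map (Int.castRingHom (AlgebraicClosure K)) = MultSystem.prodPoly A m v) :
    pRank (Ideal.absNorm v.asIdeal) G =
      ∑ i, m i * ∑ σ : (A i).E →+* AlgebraicClosure K, unitRank (A i) v Q σ := by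
  classical
  have hQm := hQ.1
  letI := Ideal.Quotient.field Q
  haveI := hQ.1.isPrime
  have hp := MultSystem.norm_mem hv.1 hQ.2
  have hG' : G.map (Int.castRingHom (𝓞 (AlgebraicClosure K))) =
      ∏ i, ∏ σ : (A i).E →+* AlgebraicClosure K,
      ((((A i).P v).map (RingOfIntegers.mapRingHom σ)) ^ m i) := by
    apply Polynomial.map_injective (algebraMap (𝓞 (AlgebraicClosure K)) (AlgebraicClosure K))
      (RingOfIntegers.coe_injective)
    rw [Polynomial.map_map, Polynomial.map_prod]
    have e1 : (algebraMap (𝓞 (AlgebraicClosure K)) (AlgebraicClosure K)).comp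
        (Int.castRingHom (𝓞 (AlgebraicClosure K))) = Int.castRingHom (AlgebraicClosure K) :=
      RingHom.ext_int _ _
    rw [e1, hG]
    unfold MultSystem.prodPoly
    apply Finset.prod_congr rfl
    intro i _
    rw [Polynomial.map_prod]
    apply Finset.prod_congr rfl
    intro σ _
    rw [Polynomial.map_pow, Polynomial.map_map]
    rfl
  have hG2 : G.map (Int.castRingHom (𝓞 (AlgebraicClosure K) ⧸ Q)) =
      ∏ i, ∏ σ : (A i).E →+* AlgebraicClosure K, (redPoly (A i) v Q σ ^ m i) := by
    have e1 : (Ideal.Quotient.mk Q).comp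
        (Int.castRingHom (𝓞 (AlgebraicClosure K))) = Int.castRingHom (𝓞 (AlgebraicClosure K) ⧸ Q) :=
      RingHom.ext_int _ _
    rw [← e1, ← Polynomial.map_map, hG', Polynomial.map_prod]
    apply Finset.prod_congr rfl
    intro i _
    rw [Polynomial.map_prod]
    apply Finset.prod_congr rfl
    intro σ _
    rw [Polynomial.map_pow, Polynomial.map_map]
    rfl
  have hchar : CharP (𝓞 (AlgebraicClosure K) ⧸ Q) (Ideal.absNorm v.asIdeal) := by
    rw [CharP.charP_iff_prime_eq_zero hv.1]
    have := Ideal.Quotient.eq_zero_iff_mem.mpr hp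
    rwa [map_natCast] at this
  haveI : Fact (Ideal.absNorm v.asIdeal).Prime := ⟨hv.1⟩
  set f : ZMod (Ideal.absNorm v.asIdeal) →+* (𝓞 (AlgebraicClosure K) ⧸ Q) :=
    ZMod.castHom (dvd_refl _) _ with hf
  have hfi : Function.Injective f := f.injective
  have hG3 : (G.map (Int.castRingHom (ZMod (Ideal.absNorm v.asIdeal)))).map f =
      ∏ i, ∏ σ : (A i).E →+* AlgebraicClosure K, (redPoly (A i) v Q σ ^ m i) := by
    rw [Polynomial.map_map, ← hG2]
    congr 1
    exact RingHom.ext_int _ _
  have hne : ∀ i (σ : (A i).E →+* AlgebraicClosure K), redPoly (A i) v Q σ ≠ 0 :=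
    fun i σ => redPoly_ne (hA i) hv hQ σ
  have hdeg : ∀ i (σ : (A i).E →+* AlgebraicClosure K), (redPoly (A i) v Q σ).natDegree = (A i).n := by
    intro i σ
    unfold redPoly
    rw [((hA i).isMonic v hv).1.natDegree_map, ((hA i).isMonic v hv).2]
  have h1 := trailing_prod (Finset.univ : Finset ι)
    (fun i => ∏ σ : (A i).E →+* AlgebraicClosure K, (redPoly (A i) v Q σ ^ m i))
    (fun i => ∑ σ : (A i).E →+* AlgebraicClosure K, m i * (redPoly (A i) v Q σ).natTrailingDegree)
    (fun i _ => trailing_prod _ _ _ (fun σ _ => trailing_pow _ _ _ (hne i σ) rfl))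
  have h2 : (∏ i, ∏ σ : (A i).E →+* AlgebraicClosure K, (redPoly (A i) v Q σ ^ m i)).natDegree =
      ∑ i, ∑ σ : (A i).E →+* AlgebraicClosure K, m i * (A i).n := by
    rw [natDegree_prod _ _ (fun i _ => Finset.prod_ne_zero_iff.mpr fun σ _ => pow_ne_zero _ (hne i σ))]
    apply Finset.sum_congr rfl
    intro i _
    rw [natDegree_prod _ _ (fun σ _ => pow_ne_zero _ (hne i σ))]
    apply Finset.sum_congr rfl
    intro σ _
    rw [natDegree_pow, hdeg]
  unfold pRank
  rw [← natTrailingDegree_map_inj f hfi, ← natDegree_map_eq_of_injective hfi, hG3, h1.2, h2]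
  have h3 : ∑ i, ∑ σ : (A i).E →+* AlgebraicClosure K, m i * (A i).n =
      ∑ i, m i * ∑ σ : (A i).E →+* AlgebraicClosure K, unitRank (A i) v Q σ +
      ∑ i, ∑ σ : (A i).E →+* AlgebraicClosure K, m i * (redPoly (A i) v Q σ).natTrailingDegree := by
    rw [← Finset.sum_add_distrib]
    apply Finset.sum_congr rfl
    intro i _
    rw [Finset.mul_sum, ← Finset.sum_add_distrib]
    apply Finset.sum_congr rfl
    intro σ _
    rw [← mul_add]
    congr 1
    unfold unitRank
    have := td_le (hA i) hv hQ σ
    omega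
  rw [h3, Nat.add_sub_cancel]

end family

end

section densities

variable {K : Type} [Field K] [NumberField K]

/-- the complement of a set of density zero has density one -/
theorem dens_one (P : HeightOneSpectrum (𝓞 K) → Prop) (h : Tendsto (dens fun v => ¬ P v) atTop (𝓝 0)) :
    Tendsto (dens P) atTop (𝓝 1) := by
  have h1 := dens_true (K := K)
  have h2 := h1.sub h
  rw [sub_zero] at h2
  refine tendsto_of_tendsto_of_tendsto_of_le_of_le h2 h1 ?_ ?_
  · intro N
    have := dens_or P (fun v => ¬ P v) N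
    have h3 : dens (fun _ : HeightOneSpectrum (𝓞 K) => True) N ≤ dens (fun v => P v ∨ ¬ P v) N :=
      dens_mono (fun v _ => em _) N
    change dens (fun _ : HeightOneSpectrum (𝓞 K) => True) N - dens (fun v => ¬ P v) N ≤ dens P N
    linarith
  · intro N
    exact dens_mono (fun v _ => trivial) N

theorem ratio_one (P : HeightOneSpectrum (𝓞 K) → Prop) (h : Tendsto (dens fun v => ¬ P v) atTop (𝓝 0)) :
    Tendsto (ratio P) atTop (𝓝 1) := ratio_tendsto P 1 (dens_one P h)

/-- the places of degree one outside a finite set of characteristics have density one -/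
theorem dens_not_deg1 (S : Finset ℕ) :
    Tendsto (dens fun v : HeightOneSpectrum (𝓞 K) => ¬ IsDeg1 S v) atTop (𝓝 0) := by
  have h1 := (dens_not_prime (K := K)).add (dens_finite _ (finite_norm_mem (K := K) S))
  rw [add_zero] at h1
  refine squeeze_zero (fun N => dens_nonneg _ _) (fun N => ?_) h1
  refine le_trans (dens_mono ?_ N) (dens_or _ _ N)
  intro v hv
  by_cases hp : (Ideal.absNorm v.asIdeal).Prime
  · right
    by_contra hS
    exact hv ⟨hp, hS⟩
  · exact Or.inl hp

end densities

end Pool.Agent.TH30.Ord
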