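import Pool.Agent.W528.Ord.MotDown

/-! Reductions of points of a finitely generated ring with values in number fields. -/

set_option autoImplicit false
set_option linter.all false

namespace Pool.Agent.TH30.Ord

open NumberField IsDedekindDomain Polynomial Filter Topology
open Pool.Agent.W401.Cheb Pool.Agent.W528.Ord
open Pool.Agent.W528.Ord.MultSystem (IsDeg1 IsOver)

section reduction

variable {A : Type} [CommRing A] {K : Type} [Field K] [NumberField K] (φ : A →+* K)

/-- the prime ideal `s` of `A` is the reduction at `v` of the point `φ` with values in `K`: the point is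
integral at `v`, and `s` consists of the elements whose value lies in the maximal ideal of `v` -/
def IsReduction (v : HeightOneSpectrum (𝓞 K)) (s : Ideal A) : Prop :=
  (∀ x, v.valuation K (φ x) ≤ 1) ∧ ∀ x, x ∈ s ↔ v.valuation K (φ x) < 1

theorem isReduction_unique {v : HeightOneSpectrum (𝓞 K)} {s s' : Ideal A} (h : IsReduction φ v s)
    (h' : IsReduction φ v s') : s = s' := by
  ext x
  rw [h.2, h'.2]

/-- a common denominator -/
theorem exists_denominator [Algebra.FiniteType ℤ A] : ∃ b : 𝓞 K, b ≠ 0 ∧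
    ∀ x : A, ∃ (k : ℕ) (y : 𝓞 K), φ x * (b : K) ^ k = y := by
  classical
  obtain ⟨t, ht⟩ := (Algebra.FiniteType.out : (⊤ : Subalgebra ℤ A).FG)
  have h1 : ∀ x : A, ∃ z : 𝓞 K × 𝓞 K, z.1 ≠ 0 ∧ φ x * (z.1 : K) = z.2 := by
    intro x
    obtain ⟨y, z, hz, e⟩ := IsFractionRing.div_surjective (A := 𝓞 K) (φ x)
    have hz0 : z ≠ 0 := nonZeroDivisors.ne_zero hz
    refine ⟨(z, y), hz0, ?_⟩
    have hz1 : (algebraMap (𝓞 K) K) z ≠ 0 := by
      intro h
      exact hz0 ((FaithfulSMul.algebraMap_injective (𝓞 K) K) (by rw [h, map_zero]))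
    change φ x * algebraMap (𝓞 K) K z = algebraMap (𝓞 K) K y
    rw [← e, div_mul_cancel₀ _ hz1]
  choose z hz0 hz using h1
  refine ⟨∏ x ∈ t, (z x).1, Finset.prod_ne_zero_iff.mpr fun x _ => hz0 x, ?_⟩
  set b : 𝓞 K := ∏ x ∈ t, (z x).1 with hb
  intro x
  have hx : x ∈ Algebra.adjoin ℤ (t : Set A) := by rw [ht]; trivial
  induction hx using Algebra.adjoin_induction with
  | mem x hx =>
    obtain ⟨c, hc⟩ : (z x).1 ∣ b := Finset.dvd_prod_of_mem _ hx
    refine ⟨1, (z x).2 * c, ?_⟩
    have e : (b : K) = ((z x).1 : K) * (c : K) := by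
      rw [hc]
      exact map_mul (algebraMap (𝓞 K) K) _ _
    have e2 : (((z x).2 * c : 𝓞 K) : K) = ((z x).2 : K) * (c : K) := map_mul (algebraMap (𝓞 K) K) _ _
    rw [pow_one, e, e2, ← mul_assoc, hz]
  | algebraMap r =>
    refine ⟨0, (r : 𝓞 K), ?_⟩
    simp
  | add x x' _ _ ih ih' =>
    obtain ⟨k, y, e⟩ := ih
    obtain ⟨k', y', e'⟩ := ih'
    refine ⟨k + k', y * b ^ k' + y' * b ^ k, ?_⟩
    have e2 : ((y * b ^ k' + y' * b ^ k : 𝓞 K) : K) = (y : K) * (b : K) ^ k' + (y' : K) * (b : K) ^ k := by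
      change algebraMap (𝓞 K) K _ = _
      rw [map_add, map_mul, map_mul, map_pow, map_pow]
    rw [e2, ← e, ← e', map_add, pow_add]
    ring
  | mul x x' _ _ ih ih' =>
    obtain ⟨k, y, e⟩ := ih
    obtain ⟨k', y', e'⟩ := ih'
    refine ⟨k + k', y * y', ?_⟩
    have e2 : ((y * y' : 𝓞 K) : K) = (y : K) * (y' : K) := map_mul (algebraMap (𝓞 K) K) _ _
    rw [e2, ← e, ← e', map_mul, pow_add]
    ring

theorem val_eq_one {v : HeightOneSpectrum (𝓞 K)} {b : 𝓞 K} (hb : b ∉ v.asIdeal) :
    v.valuation K (b : K) = 1 := by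
  apply le_antisymm (v.valuation_le_one b)
  rw [← not_lt]
  intro h
  exact hb ((v.valuation_lt_one_iff_mem b).mp h)

/-- **the reduction exists** at almost all places of degree one -/
theorem exists_reduction {b : 𝓞 K} (hb0 : ∀ x : A, ∃ (k : ℕ) (y : 𝓞 K), φ x * (b : K) ^ k = y)
    {v : HeightOneSpectrum (𝓞 K)} (hb : b ∉ v.asIdeal) (hv : (Ideal.absNorm v.asIdeal).Prime) :
    ∃ s : Ideal A, IsReduction φ v s ∧ s.IsMaximal ∧
      Nat.card (A ⧸ s) = Ideal.absNorm v.asIdeal := by
  classical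
  haveI := v.isMaximal
  letI := Ideal.Quotient.field v.asIdeal
  choose k y h using hb0
  set mk := Ideal.Quotient.mk v.asIdeal with hmk
  have hb1 : mk b ≠ 0 := by
    rw [Ne, hmk, Ideal.Quotient.eq_zero_iff_mem]
    exact hb
  let ψ0 : A → 𝓞 K ⧸ v.asIdeal := fun x => mk (y x) * (mk b ^ k x)⁻¹
  have key : ∀ (x : A) (k' : ℕ) (y' : 𝓞 K), φ x * (b : K) ^ k' = y' →
      ψ0 x = mk y' * (mk b ^ k')⁻¹ := by
    intro x k' y' e
    have e1 : y x * b ^ k' = y' * b ^ k x := by
      apply RingOfIntegers.ext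
      have e2 : ((y x * b ^ k' : 𝓞 K) : K) = (y x : K) * (b : K) ^ k' := by
        change algebraMap (𝓞 K) K _ = _
        rw [map_mul, map_pow]
      have e3 : ((y' * b ^ k x : 𝓞 K) : K) = (y' : K) * (b : K) ^ k x := by
        change algebraMap (𝓞 K) K _ = _
        rw [map_mul, map_pow]
      rw [e2, e3, ← h, ← e]
      ring
    have e4 := congrArg mk e1
    rw [map_mul, map_mul, map_pow, map_pow] at e4
    change mk (y x) * (mk b ^ k x)⁻¹ = _
    rw [← div_eq_mul_inv, ← div_eq_mul_inv, div_eq_div_iff (pow_ne_zero _ hb1) (pow_ne_zero _ hb1)]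
    exact e4
  let ψ : A →+* 𝓞 K ⧸ v.asIdeal :=
    { toFun := ψ0
      map_one' := by
        rw [key 1 0 1 (by rw [map_one]; simp)]
        simp
      map_mul' := by
        intro x x'
        have e2 : ((y x * y x' : 𝓞 K) : K) = (y x : K) * (y x' : K) := map_mul (algebraMap (𝓞 K) K) _ _
        rw [key (x * x') (k x + k x') (y x * y x') (by rw [e2, ← h, ← h, map_mul, pow_add]; ring),
          map_mul, pow_add, mul_inv]
        change _ = (mk (y x) * (mk b ^ k x)⁻¹) * (mk (y x') * (mk b ^ k x')⁻¹)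
        ring
      map_zero' := by
        rw [key 0 0 0 (by rw [map_zero]; simp)]
        simp
      map_add' := by
        intro x x'
        have e2 : ((y x * b ^ k x' + y x' * b ^ k x : 𝓞 K) : K) =
            (y x : K) * (b : K) ^ k x' + (y x' : K) * (b : K) ^ k x := by
          change algebraMap (𝓞 K) K _ = _
          rw [map_add, map_mul, map_mul, map_pow, map_pow]
        rw [key (x + x') (k x + k x') (y x * b ^ k x' + y x' * b ^ k x)
          (by rw [e2, ← h, ← h, map_add, pow_add]; ring)]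
        change _ = (mk (y x) * (mk b ^ k x)⁻¹) + (mk (y x') * (mk b ^ k x')⁻¹)
        rw [map_add, map_mul, map_mul, map_pow, map_pow, pow_add]
        have h1 := pow_ne_zero (k x) hb1
        have h2 := pow_ne_zero (k x') hb1
        field_simp }
  have hker : ∀ x, x ∈ RingHom.ker ψ ↔ v.valuation K (φ x) < 1 := by
    intro x
    have e1 : ψ x = mk (y x) * (mk b ^ k x)⁻¹ := rfl
    have e2 : v.valuation K (φ x) = v.valuation K (y x : K) := by
      have := congrArg (v.valuation K) (h x)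
      rwa [map_mul, map_pow, val_eq_one hb, one_pow, mul_one] at this
    rw [RingHom.mem_ker, e1, mul_eq_zero, e2]
    have h3 : (mk b ^ k x)⁻¹ ≠ 0 := inv_ne_zero (pow_ne_zero _ hb1)
    rw [or_iff_left h3, hmk, Ideal.Quotient.eq_zero_iff_mem]
    exact (v.valuation_lt_one_iff_mem (y x)).symm
  have hcard : Nat.card (𝓞 K ⧸ v.asIdeal) = Ideal.absNorm v.asIdeal := by
    rw [Ideal.absNorm_apply, Submodule.cardQuot_apply]
  have hsurj : Function.Surjective ψ := by
    haveI : Fintype (𝓞 K ⧸ v.asIdeal) := Fintype.ofFinite _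
    haveI : Fact (Ideal.absNorm v.asIdeal).Prime := ⟨hv⟩
    let e := ZMod.ringEquivOfPrime (𝓞 K ⧸ v.asIdeal) hv (by
      rw [← Nat.card_eq_fintype_card]; exact hcard)
    intro z
    refine ⟨((e.symm z).val : A), ?_⟩
    rw [map_natCast]
    have : z = e (e.symm z) := (e.apply_symm_apply z).symm
    conv_rhs => rw [this, ← ZMod.natCast_zmod_val (e.symm z), map_natCast]
  refine ⟨RingHom.ker ψ, ⟨?_, hker⟩, RingHom.ker_isMaximal_of_surjective ψ hsurj, ?_⟩
  · intro x
    have e2 : v.valuation K (φ x) = v.valuation K (y x : K) := by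
      have := congrArg (v.valuation K) (h x)
      rwa [map_mul, map_pow, val_eq_one hb, one_pow, mul_one] at this
    rw [e2]
    exact v.valuation_le_one (y x)
  · rw [← hcard]
    exact Nat.card_congr (RingHom.quotientKerEquivOfSurjective hsurj).toEquiv

theorem finite_mem {b : K} (hb : b ≠ 0) :
    {v : HeightOneSpectrum (𝓞 K) | v.valuation K b < 1}.Finite := by
  refine (HeightOneSpectrum.Support.finite (R := 𝓞 K) (b⁻¹)).subset ?_
  intro v hv
  change 1 < v.valuation K b⁻¹
  rw [map_inv₀]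
  have h0 : v.valuation K b ≠ 0 := (Valuation.ne_zero_iff _).mpr hb
  exact (one_lt_inv₀ (zero_lt_iff.mpr h0)).mpr hv

end reduction

end Pool.Agent.TH30.Ord
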