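import Pool.Agent.TH30.Ord.Spread
import Pool.Agent.TH30.Ord.PRank
import Pool.Agent.W528.Ord.AllEll

/-! Ordinary closed points from points with values in number fields. -/

set_option autoImplicit false
set_option linter.all false

namespace Pool.Agent.TH30.Ord

open NumberField IsDedekindDomain Polynomial Filter Topology
open Pool.Agent.W401.Cheb Pool.Agent.W528.Ord
open Pool.Agent.W528.Ord.MultSystem (IsDeg1 IsOver)

section

variable {A : Type} [CommRing A] {K : Type} [Field K] [NumberField K]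

/-- The fibre at the point `φ` of `Spec A` with values in the number field `K` is a sum of motives with
multiplication by totally real or CM fields which satisfy the orbit condition for a common element of
the Galois group: `F s` is the Frobenius polynomial of the fibre at the closed point `s` of `Spec A`, and
`H` are the Hodge slopes. -/
def AdmissiblePoint (F : Ideal A → ℤ[X]) (H : Multiset ℕ) (φ : A →+* K) : Prop :=
  ∃ (ℓ : ℕ) (_ : Fact ℓ.Prime) (ι : Type) (_ : Fintype ι) (M : ι → MotSystem K ℓ) (m : ι → ℕ)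
    (χ : GK K →* (PadicAlgCl ℓ)ˣ) (S : Finset ℕ), (∀ i, (M i).IsMotive χ S) ∧
    (∃ γ : GK K, ∀ i, (M i).Admissible γ) ∧ MotSystem.slopes M m = H ∧
    ∀ (v : HeightOneSpectrum (𝓞 K)) (s : Ideal A), IsDeg1 S v → IsReduction φ v s →
      (F s).map (Int.castRingHom (AlgebraicClosure K)) = MotSystem.prodPoly M m v

/-- `s` is a closed point of `Spec A` whose residue field has `q` elements, at which the Newton
polygon of the Frobenius polynomial `F s` has the slopes `H` -/
def OrdinaryPoint (F : Ideal A → ℤ[X]) (H : Multiset ℕ) (q : ℕ) (s : Ideal A) : Prop :=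
  s.IsMaximal ∧ Nat.card (A ⧸ s) = q ∧ NewtonSlopes q (F s) H

theorem spread [Algebra.FiniteType ℤ A] (F : Ideal A → ℤ[X]) (H : Multiset ℕ) (φ : A →+* K)
    (hφ : AdmissiblePoint F H φ) (a : A) (ha : φ a ≠ 0) :
    0 < lowerDensity fun v₀ : HeightOneSpectrum (𝓞 ℚ) => (Ideal.absNorm v₀.asIdeal).Prime ∧
      ∃ s : Ideal A, a ∉ s ∧ OrdinaryPoint F H (Ideal.absNorm v₀.asIdeal) s := by
  classical
  obtain ⟨ℓ, hℓ, ι, hι, M, m, χ, S, hM, ⟨γ₀, hγ₀⟩, hH, hF⟩ := hφ
  obtain ⟨b, hb0, hb⟩ := exists_denominator φ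
  -- the finite set of excluded places
  set X : Set (HeightOneSpectrum (𝓞 K)) := {v | v.valuation K (b : K) < 1} ∪
    {v | v.valuation K (φ a) < 1} with hX
  have hbK : (b : K) ≠ 0 := by
    intro h
    exact hb0 ((FaithfulSMul.algebraMap_injective (𝓞 K) K) (by rw [map_zero]; exact h))
  have hXf : X.Finite := (finite_mem hbK).union (finite_mem ha)
  have hgood : ∀ v : HeightOneSpectrum (𝓞 K), v ∉ X → (Ideal.absNorm v.asIdeal).Prime →
      ∃ s : Ideal A, IsReduction φ v s ∧ s.IsMaximal ∧ Nat.card (A ⧸ s) = Ideal.absNorm v.asIdeal ∧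
        a ∉ s := by
    intro v hv hp
    obtain ⟨s, h1, h2, h3⟩ := exists_reduction φ hb (v := v) (fun h => hv (Or.inl
      ((v.valuation_lt_one_iff_mem b).mpr h))) hp
    exact ⟨s, h1, h2, h3, fun h => hv (Or.inr ((h1.2 a).mp h))⟩
  -- the good places
  let P : HeightOneSpectrum (𝓞 K) → Prop := fun v => (Ideal.absNorm v.asIdeal).Prime ∧
    ∃ s : Ideal A, a ∉ s ∧ OrdinaryPoint F H (Ideal.absNorm v.asIdeal) s
  have hpos := MotSystem.admProportion_pos M ⟨γ₀, hγ₀⟩
  have hlim := MotSystem.adm_dens M χ S hM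
  have h1 := dens_biUnion (Finset.univ.sigma (fun i : ι => Finset.range (M i).n))
    (fun x : (Σ _ : ι, ℕ) => (M x.1).Bad S x.2) (fun x _ => MotSystem.bad_dens (hM x.1) x.2)
  have h2 := dens_not_deg1 (K := K) S
  have h3 := dens_finite (fun v : HeightOneSpectrum (𝓞 K) => v ∈ X) hXf
  set δ := MotSystem.admProportion M with hδ
  have hev : ∀ᶠ N : ℕ in atTop, δ / 5 ≤ dens P N := by
    have e0 := hlim.eventually (lt_mem_nhds (show 4 * δ / 5 < δ by linarith))
    have e1 := h1.eventually (gt_mem_nhds (show (0:ℝ) < δ / 5 by positivity))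
    have e2 := h2.eventually (gt_mem_nhds (show (0:ℝ) < δ / 5 by positivity))
    have e3 := h3.eventually (gt_mem_nhds (show (0:ℝ) < δ / 5 by positivity))
    filter_upwards [e0, e1, e2, e3] with N h0 h1 h2 h3
    have hle : dens (fun v : HeightOneSpectrum (𝓞 K) => ∃ γ : GK K, IsFrob v γ ∧
        ∀ i, (M i).Admissible γ) N ≤ dens P N + (dens (fun v => ∃ x ∈ Finset.univ.sigma
        (fun i : ι => Finset.range (M i).n), (M x.1).Bad S x.2 v) N +
        (dens (fun v : HeightOneSpectrum (𝓞 K) => ¬ IsDeg1 S v) N +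
        dens (fun v : HeightOneSpectrum (𝓞 K) => v ∈ X) N)) := by
      refine le_trans (dens_mono (Q := fun v => _ ∨ (_ ∨ (_ ∨ _))) ?_ N)
        (le_trans (dens_or _ _ N) (add_le_add_right (le_trans (dens_or _ _ N)
          (add_le_add_right (dens_or _ _ N) _)) _))
      intro v hv
      by_cases hd : IsDeg1 S v
      · by_cases hvX : v ∈ X
        · exact Or.inr (Or.inr (Or.inr hvX))
        · by_cases hbad : ∃ x ∈ Finset.univ.sigma (fun i : ι => Finset.range (M i).n),
              (M x.1).Bad S x.2 v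
          · exact Or.inr (Or.inl hbad)
          · left
            obtain ⟨s, hs1, hs2, hs3, hs4⟩ := hgood v hvX hd.1
            obtain ⟨γ, ⟨Q, hQ, hQv, hγ⟩, hadm⟩ := hv
            refine ⟨hd.1, s, hs4, hs2, hs3, ?_⟩
            rw [← hH]
            apply MotSystem.newton_of M m χ S hM hd ⟨hQ, hQv⟩ (F s) (hF v s hd hs1)
            intro i _ σ k hk hdv
            apply hbad
            refine ⟨⟨i, k⟩, ?_, hd, Q, γ, σ, ⟨hQ, hQv⟩, hγ, hadm i, hk, hdv⟩
            rw [Finset.mem_sigma]
            exact ⟨Finset.mem_univ _, Finset.mem_range.mpr hk.2.1⟩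
      · exact Or.inr (Or.inr (Or.inl hd))
    linarith
  have hd : (0 : ℝ) < (Module.finrank ℚ K : ℝ) := by exact_mod_cast Module.finrank_pos
  apply lowerDensity_pos _ (δ / 5 / (Module.finrank ℚ K : ℝ)) (by positivity)
  filter_upwards [hev] with N hN
  have h4 := dens_under (K₀ := ℚ) P (fun v₀ : HeightOneSpectrum (𝓞 ℚ) =>
      (Ideal.absNorm v₀.asIdeal).Prime ∧
      ∃ s : Ideal A, a ∉ s ∧ OrdinaryPoint F H (Ideal.absNorm v₀.asIdeal) s)
      (fun v hv => hv.1) (fun v v₀ hv h0 => by
        rw [under_norm v hv.1 v₀ h0]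
        exact hv) N
  rw [div_le_iff₀ hd, mul_comm]
  exact hN.trans h4

end

end Pool.Agent.TH30.Ord
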