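import Pool.Agent.TH30.Ord.PRank

/-! Stable sets of embeddings, and the lower bound for the `p`-rank. -/

set_option autoImplicit false
set_option linter.all false

namespace Pool.Agent.TH30.Ord

open NumberField IsDedekindDomain Polynomial Filter Topology
open Pool.Agent.W401.Cheb Pool.Agent.W528.Ord
open Pool.Agent.W528.Ord.MultSystem (mv IsDeg1 IsOver)

section

variable {K : Type} [Field K] [NumberField K] {ℓ : ℕ} [Fact ℓ.Prime]

/-- the sets of embeddings which are stable under `γ`, at which the slope `0` has multiplicity at least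
`j` in the Hodge polygon, and which have fewer elements than half the Hodge defect at `j` -/
def SmallStable (A : MultSystem K ℓ) (γ : GK K) (j : ℕ) (B : Set (A.E →+* AlgebraicClosure K)) : Prop :=
  (∀ σ ∈ B, mv γ σ ∈ B) ∧ (∀ σ ∈ B, j ≤ A.r σ) ∧ 2 * (B.ncard : ℤ) < hodgeDefect A j

/-- the largest number of elements of such a set (`0` if there is none) -/
noncomputable def stableMax (A : MultSystem K ℓ) (γ : GK K) (j : ℕ) : ℕ :=
  sSup {b | ∃ B : Set (A.E →+* AlgebraicClosure K), SmallStable A γ j B ∧ B.ncard = b}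

theorem stable_bdd (A : MultSystem K ℓ) (γ : GK K) (j : ℕ) :
    BddAbove {b | ∃ B : Set (A.E →+* AlgebraicClosure K), SmallStable A γ j B ∧ B.ncard = b} := by
  refine ⟨Nat.card (A.E →+* AlgebraicClosure K), ?_⟩
  rintro b ⟨B, -, rfl⟩
  exact Set.ncard_le_card B

theorem le_stableMax {A : MultSystem K ℓ} {γ : GK K} {j : ℕ} {B : Set (A.E →+* AlgebraicClosure K)}
    (h : SmallStable A γ j B) : B.ncard ≤ stableMax A γ j :=
  le_csSup (stable_bdd A γ j) ⟨B, h, rfl⟩

theorem stableMax_le {A : MultSystem K ℓ} {γ γ' : GK K} {j : ℕ}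
    (h : ∀ B : Set (A.E →+* AlgebraicClosure K), SmallStable A γ j B →
      ∃ B' : Set (A.E →+* AlgebraicClosure K), SmallStable A γ' j B' ∧ B.ncard = B'.ncard) :
    stableMax A γ j ≤ stableMax A γ' j := by
  unfold stableMax
  rcases Set.eq_empty_or_nonempty
    {b | ∃ B : Set (A.E →+* AlgebraicClosure K), SmallStable A γ j B ∧ B.ncard = b} with h0 | h0
  · rw [h0]
    simp
  · apply csSup_le h0
    rintro b ⟨B, hB, rfl⟩
    obtain ⟨B', hB', e⟩ := h B hB
    rw [e]
    exact le_stableMax hB'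

theorem stableMax_conj {A : MultSystem K ℓ}
    (hr : ∀ (γ : GK K) (σ : A.E →+* AlgebraicClosure K), A.r (mv γ σ) = A.r σ) (γ τ : GK K) (j : ℕ) :
    stableMax A (τ * γ * τ⁻¹) j ≤ stableMax A γ j := by
  apply stableMax_le
  rintro B ⟨h1, h2, h3⟩
  have e : (mv τ⁻¹ '' B).ncard = B.ncard :=
    Set.ncard_image_of_injective B (MultSystem.mv_inj τ⁻¹)
  refine ⟨mv τ⁻¹ '' B, ⟨?_, ?_, ?_⟩, e.symm⟩
  · rintro _ ⟨σ, hσ, rfl⟩
    refine ⟨mv (τ * γ * τ⁻¹) σ, h1 σ hσ, ?_⟩
    rw [← MultSystem.mv_mul, ← MultSystem.mv_mul]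
    congr 1
    group
  · rintro _ ⟨σ, hσ, rfl⟩
    rw [hr]
    exact h2 σ hσ
  · rw [e]
    exact h3

theorem stableMax_fix {ι : Type} (A : ι → MultSystem K ℓ) (i : ι) {γ u : GK K}
    (hu : u ∈ MultSystem.fixU A) (j : ℕ) :
    stableMax (A i) (γ * u) j ≤ stableMax (A i) γ j := by
  apply stableMax_le
  rintro B ⟨h1, h2, h3⟩
  refine ⟨B, ⟨?_, h2, h3⟩, rfl⟩
  intro σ hσ
  have := h1 σ hσ
  rwa [MultSystem.mv_mul, hu i σ] at this

/-- for the identity the sets are arbitrary, so that the maximum is the largest -/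
theorem stableMax_le_one (A : MultSystem K ℓ) (γ : GK K) (j : ℕ) :
    stableMax A γ j ≤ stableMax A 1 j := by
  apply stableMax_le
  rintro B ⟨h1, h2, h3⟩
  refine ⟨B, ⟨?_, h2, h3⟩, rfl⟩
  intro σ hσ
  rw [MultSystem.mv_one]
  exact hσ

section fixed

variable {A : MultSystem K ℓ} {χ : GK K →* (PadicAlgCl ℓ)ˣ} {S : Finset ℕ} (hA : A.IsAbelian χ S)
  {v : HeightOneSpectrum (𝓞 K)} (hv : IsDeg1 S v)
  {Q : Ideal (𝓞 (AlgebraicClosure K))} (hQ : IsOver Q v)

include hA hv hQ in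
/-- if all Hodge slopes are `0`, so are all Newton slopes -/
theorem unitRank_top (σ : A.E →+* AlgebraicClosure K) (h : A.r σ = A.n) : unitRank A v Q σ = A.n := by
  haveI := hQ.1.isPrime
  obtain ⟨s, t, hs, ht, e⟩ := (hA.isMazur v hv Q hQ σ).2
  rw [h, Nat.sub_self, pow_zero, mul_one] at e
  have h0 : (redPoly A v Q σ).coeff 0 ≠ 0 := by
    rw [redPoly_coeff, Ne, Ideal.Quotient.eq_zero_iff_mem]
    intro hmem
    exact ht (e ▸ Q.mul_mem_left s hmem)
  have h1 : (redPoly A v Q σ).natTrailingDegree ≤ 0 := natTrailingDegree_le_of_ne_zero h0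
  unfold unitRank
  omega

include hA hv hQ in
/-- the sum of the `σ`-parts of the `p`-rank -/
theorem sum_unitRank : ∑ σ : A.E →+* AlgebraicClosure K, A.r σ =
    ∑ σ : A.E →+* AlgebraicClosure K, unitRank A v Q σ + ∑ j ∈ Finset.Ioo 0 A.n, (failing A v Q j).ncard := by
  classical
  have h1 : ∀ j, (failing A v Q j).ncard =
      ∑ σ : A.E →+* AlgebraicClosure K, (if σ ∈ failing A v Q j then 1 else 0) := by
    intro j
    rw [← Finset.sum_filter, Finset.sum_const, smul_eq_mul, mul_one, ← Set.ncard_coe_finset]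
    congr 1
    ext σ
    simp
  simp only [h1]
  rw [Finset.sum_comm, ← Finset.sum_add_distrib]
  apply Finset.sum_congr rfl
  intro σ _
  rw [← Finset.sum_filter, Finset.sum_const, smul_eq_mul, mul_one]
  have h2 : (Finset.Ioo 0 A.n).filter (fun j => σ ∈ failing A v Q j) =
      Finset.Ioc (unitRank A v Q σ) (A.r σ) := by
    ext j
    rw [Finset.mem_filter, Finset.mem_Ioo, Finset.mem_Ioc]
    constructor
    · rintro ⟨-, h⟩
      exact h
    · rintro ⟨h3, h4⟩
      have hr := hA.r_le σ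
      refine ⟨⟨by omega, ?_⟩, h3, h4⟩
      rcases Nat.lt_or_ge (A.r σ) A.n with h5 | h5
      · omega
      · exfalso
        have h6 := unitRank_top hA hv hQ σ (by omega)
        omega
  rw [h2, Nat.card_Ioc]
  have := unitRank_le hA hv hQ σ
  omega

include hA hv hQ in
theorem failing_definite (hdef : ¬ ∃ σ₀, 0 < A.r σ₀ ∧ A.r σ₀ < A.n) (j : ℕ) (hj : 0 < j)
    (hjn : j < A.n) : failing A v Q j = ∅ := by
  ext σ
  simp only [Set.mem_empty_iff_false, iff_false]
  rintro ⟨h1, h2⟩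
  have h3 : A.r σ = A.n := by
    by_contra hne
    exact hdef ⟨σ, by omega, by have := hA.r_le σ; omega⟩
  have := unitRank_top hA hv hQ σ h3
  omega

end fixed

section family

variable {ι : Type} [Fintype ι] (A : ι → MultSystem K ℓ) (m : ι → ℕ) (χ : GK K →* (PadicAlgCl ℓ)ˣ)
  (S : Finset ℕ) (hA : ∀ i, (A i).IsAbelian χ S)

/-- the place `v` is good: it has degree one, its residue characteristic is not in `S`, and for all `i`,
`j` the failing embeddings are fewer than half the Hodge defect -/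
def GoodPlace (v : HeightOneSpectrum (𝓞 K)) : Prop :=
  IsDeg1 S v ∧ ∀ i, (∃ σ₀, 0 < (A i).r σ₀ ∧ (A i).r σ₀ < (A i).n) → ∀ j, 0 < j → j < (A i).n →
    ∀ Q, IsOver Q v → 2 * ((failing (A i) v Q j).ncard : ℤ) < hodgeDefect (A i) j

include hA in
theorem dens_good : Tendsto (dens fun v => ¬ GoodPlace A S v) atTop (𝓝 0) := by
  classical
  let bad : (Σ i : ι, ℕ) → HeightOneSpectrum (𝓞 K) → Prop := fun x v => IsDeg1 S v ∧
    (∃ σ₀, 0 < (A x.1).r σ₀ ∧ (A x.1).r σ₀ < (A x.1).n) ∧ 0 < x.2 ∧ x.2 < (A x.1).n ∧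
      ∃ Q, IsOver Q v ∧ ¬ (2 * ((failing (A x.1) v Q x.2).ncard : ℤ) < hodgeDefect (A x.1) x.2)
  have hbad : ∀ x, Tendsto (dens (bad x)) atTop (𝓝 0) := by
    rintro ⟨i, j⟩
    by_cases hex : (∃ σ₀, 0 < (A i).r σ₀ ∧ (A i).r σ₀ < (A i).n) ∧ 0 < j ∧ j < (A i).n
    · refine squeeze_zero (fun N => dens_nonneg _ _) (fun N => dens_mono ?_ N)
        (dens_failing (hA i) hex.1 j hex.2.1 hex.2.2)
      rintro v ⟨hv, -, -, -, h⟩
      exact ⟨hv, h⟩
    · have : bad ⟨i, j⟩ = fun _ => False := by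
        funext v
        apply propext
        constructor
        · rintro ⟨-, h1, h2, h3, -⟩
          exact hex ⟨h1, h2, h3⟩
        · exact False.elim
      rw [this]
      exact dens_finite _ (by simp)
  have hun := dens_biUnion (Finset.univ.sigma (fun i : ι => Finset.range (A i).n)) bad (fun x _ => hbad x)
  have h1 := (dens_not_deg1 (K := K) S).add hun
  rw [add_zero] at h1
  refine squeeze_zero (fun N => dens_nonneg _ _) (fun N => ?_) h1
  refine le_trans (dens_mono ?_ N) (dens_or _ _ N)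
  intro v hv
  by_cases hd : IsDeg1 S v
  · right
    unfold GoodPlace at hv
    push Not at hv
    obtain ⟨i, hi, j, hj0, hjn, Q, hQ, hle⟩ := hv hd
    refine ⟨⟨i, j⟩, ?_, hd, hi, hj0, hjn, Q, hQ, not_lt.mpr hle⟩
    rw [Finset.mem_sigma]
    exact ⟨Finset.mem_univ _, Finset.mem_range.mpr hjn⟩
  · exact Or.inl hd

include hA in
/-- at a good place the failing sets are small stable sets -/
theorem failing_le {v : HeightOneSpectrum (𝓞 K)} (hv : GoodPlace A S v)
    {Q : Ideal (𝓞 (AlgebraicClosure K))} (hQ : IsOver Q v) {γ : GK K}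
    (hγ : ∀ x : 𝓞 (AlgebraicClosure K), γ • x - x ^ Ideal.absNorm v.asIdeal ∈ Q) (i : ι) (j : ℕ)
    (hj0 : 0 < j) (hjn : j < (A i).n) : (failing (A i) v Q j).ncard ≤ stableMax (A i) γ j := by
  by_cases hex : ∃ σ₀, 0 < (A i).r σ₀ ∧ (A i).r σ₀ < (A i).n
  · apply le_stableMax
    refine ⟨?_, fun σ hσ => hσ.2, hv.2 i hex j hj0 hjn Q hQ⟩
    rintro σ ⟨h1, h2⟩
    refine ⟨?_, ?_⟩
    · rw [unitRank_frob (hA i) hv.1 hQ hγ]
      exact h1
    · rw [(hA i).r_inv]
      exact h2
  · rw [failing_definite (hA i) hv.1 hQ hex j hj0 hjn, Set.ncard_empty]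
    exact Nat.zero_le _

include hA in
theorem sum_r_eq {v : HeightOneSpectrum (𝓞 K)} (hv : IsDeg1 S v)
    {Q : Ideal (𝓞 (AlgebraicClosure K))} (hQ : IsOver Q v) (g : ℕ)
    (hg : 2 * g = ∑ i, m i * ((A i).n * Module.finrank ℚ (A i).E)) :
    g = ∑ i, m i * ∑ σ : (A i).E →+* AlgebraicClosure K, (A i).r σ := by
  have h1 : 2 * g = 2 * ∑ i, m i * ∑ σ : (A i).E →+* AlgebraicClosure K, (A i).r σ := by
    rw [hg, Finset.mul_sum]
    apply Finset.sum_congr rfl
    intro i _
    have h2 := MultSystem.sum_r (hA i) hv.1 hv.2 hQ.1 hQ.2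
    have h3 : ∑ σ : (A i).E →+* AlgebraicClosure K, ((A i).n - (A i).r σ) +
        ∑ σ : (A i).E →+* AlgebraicClosure K, (A i).r σ = (A i).n * Module.finrank ℚ (A i).E := by
      rw [← Finset.sum_add_distrib]
      have : ∀ σ ∈ (Finset.univ : Finset ((A i).E →+* AlgebraicClosure K)),
          ((A i).n - (A i).r σ) + (A i).r σ = (A i).n := by
        intro σ _
        have := (hA i).r_le σ
        omega
      rw [Finset.sum_congr rfl this, Finset.sum_const, Finset.card_univ, NumberField.Embeddings.card,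
        smul_eq_mul, mul_comm]
    have h4 : (A i).n * Module.finrank ℚ (A i).E =
        2 * ∑ σ : (A i).E →+* AlgebraicClosure K, (A i).r σ := by omega
    rw [h4]
    ring
  omega

/-- the sum of the maxima -/
noncomputable def totalMax (γ : GK K) : ℕ :=
  ∑ i, m i * ∑ j ∈ Finset.Ioo 0 (A i).n, stableMax (A i) γ j

include hA in
/-- **the lower bound for the `p`-rank at a good place** -/
theorem pRank_ge {v : HeightOneSpectrum (𝓞 K)} (hv : GoodPlace A S v)
    {Q : Ideal (𝓞 (AlgebraicClosure K))} (hQ : IsOver Q v) {γ : GK K}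
    (hγ : ∀ x : 𝓞 (AlgebraicClosure K), γ • x - x ^ Ideal.absNorm v.asIdeal ∈ Q) (g : ℕ)
    (hg : 2 * g = ∑ i, m i * ((A i).n * Module.finrank ℚ (A i).E)) (G : ℤ[X])
    (hG : G.map (Int.castRingHom (AlgebraicClosure K)) = MultSystem.prodPoly A m v) :
    g ≤ pRank (Ideal.absNorm v.asIdeal) G + totalMax A m γ := by
  rw [pRank_eq A m χ S hA hv.1 hQ G hG, sum_r_eq A m χ S hA hv.1 hQ g hg]
  unfold totalMax
  rw [← Finset.sum_add_distrib]
  apply Finset.sum_le_sum
  intro i _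
  rw [← mul_add]
  apply Nat.mul_le_mul_left
  rw [sum_unitRank (hA i) hv.1 hQ]
  apply Nat.add_le_add_left
  apply Finset.sum_le_sum
  intro j hj
  rw [Finset.mem_Ioo] at hj
  exact failing_le A χ S hA hv hQ hγ i j hj.1 hj.2

end family

end

end Pool.Agent.TH30.Ord
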