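import Pool.Agent.W528.Ord.Main3
import Pool.Agent.W528.Ord.MotDown

/-! The parts of the `p`-rank at the embeddings of the field of multiplications. -/

set_option autoImplicit false
set_option linter.all false

namespace Pool.Agent.TH30.Ord

open NumberField IsDedekindDomain Polynomial Filter Topology
open Pool.Agent.W401.Cheb Pool.Agent.W528.Ord
open Pool.Agent.W528.Ord.MultSystem (mv IsDeg1 IsOver)

/-- the `p`-rank of an abelian variety over the field with `p` elements whose Frobenius polynomial is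
`G`: the number of the roots of `G` in an algebraic closure of the field with `p` elements which are not
zero, with multiplicity (that is, the multiplicity of the slope `0`) -/
noncomputable def pRank (p : ℕ) (G : ℤ[X]) : ℕ :=
  (G.map (Int.castRingHom (ZMod p))).natDegree - (G.map (Int.castRingHom (ZMod p))).natTrailingDegree

section

variable {K : Type} [Field K] [NumberField K] {ℓ : ℕ} [Fact ℓ.Prime]

/-- the `σ`-part of the Frobenius polynomial of `v`, modulo the maximal ideal `Q` above `v` of the ring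
of all algebraic integers -/
noncomputable def redPoly (A : MultSystem K ℓ) (v : HeightOneSpectrum (𝓞 K))
    (Q : Ideal (𝓞 (AlgebraicClosure K))) (σ : A.E →+* AlgebraicClosure K) :
    Polynomial (𝓞 (AlgebraicClosure K) ⧸ Q) :=
  (A.P v).map ((Ideal.Quotient.mk Q).comp (RingOfIntegers.mapRingHom σ))

/-- the `σ`-part of the `p`-rank: the number of the roots of the `σ`-part of the Frobenius polynomial
which are units at `Q`, with multiplicity -/
noncomputable def unitRank (A : MultSystem K ℓ) (v : HeightOneSpectrum (𝓞 K))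
    (Q : Ideal (𝓞 (AlgebraicClosure K))) (σ : A.E →+* AlgebraicClosure K) : ℕ :=
  A.n - (redPoly A v Q σ).natTrailingDegree

theorem redPoly_coeff (A : MultSystem K ℓ) (v : HeightOneSpectrum (𝓞 K))
    (Q : Ideal (𝓞 (AlgebraicClosure K))) (σ : A.E →+* AlgebraicClosure K) (j : ℕ) :
    (redPoly A v Q σ).coeff j = Ideal.Quotient.mk Q (A.cof v j σ) := by
  unfold redPoly
  rw [coeff_map]
  rfl

section fixed

variable {A : MultSystem K ℓ} {χ : GK K →* (PadicAlgCl ℓ)ˣ} {S : Finset ℕ} (hA : A.IsAbelian χ S)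
  {v : HeightOneSpectrum (𝓞 K)} (hv : IsDeg1 S v)
  {Q : Ideal (𝓞 (AlgebraicClosure K))} (hQ : IsOver Q v)

include hA hv hQ in
theorem redPoly_ne (σ : A.E →+* AlgebraicClosure K) : redPoly A v Q σ ≠ 0 := by
  letI := Ideal.Quotient.nontrivial_iff.mpr hQ.1.ne_top
  exact ((hA.isMonic v hv).1.map _).ne_zero

include hA hv hQ in
theorem td_le (σ : A.E →+* AlgebraicClosure K) : (redPoly A v Q σ).natTrailingDegree ≤ A.n := by
  letI := Ideal.Quotient.nontrivial_iff.mpr hQ.1.ne_top
  have h := natTrailingDegree_le_natDegree (redPoly A v Q σ)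
  have h2 : (redPoly A v Q σ).natDegree = A.n := by
    unfold redPoly
    rw [(hA.isMonic v hv).1.natDegree_map, (hA.isMonic v hv).2]
  omega

include hA hv hQ in
/-- the `σ`-part of the `p`-rank is at most the multiplicity `r σ` of the Hodge slope `0` -/
theorem unitRank_le (σ : A.E →+* AlgebraicClosure K) : unitRank A v Q σ ≤ A.r σ := by
  haveI := hQ.1.isPrime
  have hp := MultSystem.norm_mem hv.1 hQ.2
  have hne := redPoly_ne hA hv hQ σ
  have hlow : ∀ j < A.n - A.r σ, (redPoly A v Q σ).coeff j = 0 := by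
    intro j hj
    rw [redPoly_coeff, Ideal.Quotient.eq_zero_iff_mem]
    have h1 := (hA.isMazur v hv Q hQ σ).1 (A.n - j) (by omega)
    rw [show A.n - (A.n - j) = j by omega] at h1
    exact MultSystem.mem_of_dvd hQ.1 hp (h1.mono (by omega))
  have h : A.n - A.r σ ≤ (redPoly A v Q σ).natTrailingDegree := le_natTrailingDegree hne hlow
  unfold unitRank
  have := hA.r_le σ
  omega

include hA hv hQ in
/-- if the `σ`-part of the `p`-rank is smaller than `j`, the coefficient is divisible by `p` -/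
theorem dvd_of_unitRank (σ : A.E →+* AlgebraicClosure K) (j : ℕ) (hj : j ≤ A.n)
    (h : unitRank A v Q σ < j) : LocDvd Q (Ideal.absNorm v.asIdeal) 1 (A.cof v (A.n - j) σ) := by
  haveI := hQ.1.isPrime
  have hp := MultSystem.norm_mem hv.1 hQ.2
  have htd := td_le hA hv hQ σ
  have h0 : (redPoly A v Q σ).coeff (A.n - j) = 0 := by
    apply coeff_eq_zero_of_lt_natTrailingDegree
    unfold unitRank at h
    omega
  rw [redPoly_coeff, Ideal.Quotient.eq_zero_iff_mem] at h0
  apply dichotomy σ Q _ hv.1 hp (hA.isUnram _ hv.1 hv.2)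
  · exact LocDvd.zero _ _
  · rintro ⟨s, t, hs, ht, e⟩
    rw [pow_zero, mul_one] at e
    exact ht (e ▸ Q.mul_mem_left s h0)

include hA hv hQ in
/-- the `σ`-parts of the `p`-rank are invariant under the Frobenius element -/
theorem unitRank_frob {γ : GK K}
    (hγ : ∀ x : 𝓞 (AlgebraicClosure K), γ • x - x ^ Ideal.absNorm v.asIdeal ∈ Q)
    (σ : A.E →+* AlgebraicClosure K) : unitRank A v Q (mv γ σ) = unitRank A v Q σ := by
  haveI := hQ.1.isPrime
  have hco : ∀ j, (redPoly A v Q (mv γ σ)).coeff j =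
      ((redPoly A v Q σ).coeff j) ^ Ideal.absNorm v.asIdeal := by
    intro j
    rw [redPoly_coeff, redPoly_coeff, ← MultSystem.smul_cof, ← map_pow]
    rw [Ideal.Quotient.mk_eq_mk_iff_sub_mem]
    exact hγ _
  have hz : ∀ j, (redPoly A v Q (mv γ σ)).coeff j = 0 ↔ (redPoly A v Q σ).coeff j = 0 := by
    intro j
    rw [hco]
    exact pow_eq_zero_iff hv.1.ne_zero
  have h1 := redPoly_ne hA hv hQ σ
  have h2 := redPoly_ne hA hv hQ (mv γ σ)
  unfold unitRank
  congr 1
  apply le_antisymm
  · apply natTrailingDegree_le_of_ne_zero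
    rw [Ne, hz]
    exact fun h => h1 (trailingCoeff_eq_zero.mp h)
  · apply natTrailingDegree_le_of_ne_zero
    rw [Ne, ← hz]
    exact fun h => h2 (trailingCoeff_eq_zero.mp h)

end fixed

/-- **the average of the valuations of the coefficients is smaller than half the maximum**, up to a set
of places of density zero -/
theorem dens_sum {A : MultSystem K ℓ} {χ : GK K →* (PadicAlgCl ℓ)ˣ} {S : Finset ℕ} (hA : A.IsAbelian χ S)
    (hind : ∃ σ₀, 0 < A.r σ₀ ∧ A.r σ₀ < A.n) (j : ℕ) (hj0 : 0 < j) (hjn : j < A.n) :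
    Tendsto (dens fun v : HeightOneSpectrum (𝓞 K) => IsDeg1 S v ∧
      ∃ Q, IsOver Q v ∧ ∃ m : (A.E →+* AlgebraicClosure K) → ℕ,
        (∀ σ, LocDvd Q (Ideal.absNorm v.asIdeal) (m σ) (A.cof v (A.n - j) σ)) ∧
        j * Module.finrank ℚ A.E ≤ 2 * ∑ σ, m σ) atTop (𝓝 0) := by
  obtain ⟨σ₀, h0, h1⟩ := hind
  refine engine A.ρ χ hA.cont hA.contχ hA.connected j 1 hj0 hjn A.P
    (fun v => IsDeg1 S v)
    (fun v hv => hv.1) (fun v hv => (hA.isMonic v hv).1)
    (fun v hv => (hA.isMonic v hv).2)
    (fun v hv τ α h => by rw [pow_one]; exact hA.isWeil v hv τ α h)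
    (fun v hv σ hσ τ => (hA.isCompat v hv σ hσ).2 τ)
    (fun v hv σ hσ => (hA.isCompat v hv σ hσ).1) (MultSystem.nonscalar hA σ₀ h0 h1) _ ?_
  rintro v hv ⟨Q, hQ, m, hm, hle⟩
  haveI := hQ.1.isPrime
  have hp := MultSystem.norm_mem hv.1 hQ.2
  refine ⟨∑ σ, m σ, by rw [one_mul]; exact hle, ?_⟩
  have h2 := LocDvd.prod Finset.univ m (fun σ => A.cof v (A.n - j) σ) (fun σ _ => hm σ)
  have h3 : ∏ σ : A.E →+* AlgebraicClosure K, A.cof v (A.n - j) σ =
      ((Algebra.norm ℤ ((A.P v).coeff (A.n - j)) : ℤ) : 𝓞 (AlgebraicClosure K)) :=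
    (norm_eq_prod_int (AlgebraicClosure K) _).symm
  rw [h3] at h2
  exact h2.int hv.1 hp

/-- the Hodge defect at `j`: the sum over all embeddings `σ` of `j - 2 max (0, j - r σ)` -/
noncomputable def hodgeDefect (A : MultSystem K ℓ) (j : ℕ) : ℤ :=
  ∑ σ : A.E →+* AlgebraicClosure K, ((j : ℤ) - 2 * ((j - A.r σ : ℕ) : ℤ))

/-- the embeddings at which the slope `0` has multiplicity at least `j` in the Hodge polygon and smaller
than `j` in the Newton polygon -/
def failing (A : MultSystem K ℓ) (v : HeightOneSpectrum (𝓞 K)) (Q : Ideal (𝓞 (AlgebraicClosure K)))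
    (j : ℕ) : Set (A.E →+* AlgebraicClosure K) :=
  {σ | unitRank A v Q σ < j ∧ j ≤ A.r σ}

/-- **the failing embeddings are fewer than half the Hodge defect**, up to a set of places of density
zero -/
theorem dens_failing {A : MultSystem K ℓ} {χ : GK K →* (PadicAlgCl ℓ)ˣ} {S : Finset ℕ}
    (hA : A.IsAbelian χ S)
    (hind : ∃ σ₀, 0 < A.r σ₀ ∧ A.r σ₀ < A.n) (j : ℕ) (hj0 : 0 < j) (hjn : j < A.n) :
    Tendsto (dens fun v : HeightOneSpectrum (𝓞 K) => IsDeg1 S v ∧
      ∃ Q, IsOver Q v ∧ ¬ (2 * ((failing A v Q j).ncard : ℤ) < hodgeDefect A j)) atTop (𝓝 0) := by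
  classical
  refine squeeze_zero (fun N => dens_nonneg _ _) (fun N => dens_mono ?_ N) (dens_sum hA hind j hj0 hjn)
  rintro v ⟨hv, Q, hQ, hno⟩
  haveI := hQ.1.isPrime
  refine ⟨hv, Q, hQ, fun σ => (j - A.r σ) + (if σ ∈ failing A v Q j then 1 else 0), ?_, ?_⟩
  · intro σ
    by_cases h : σ ∈ failing A v Q j
    · have h1 : (j - A.r σ) + (if σ ∈ failing A v Q j then 1 else 0) = 1 := by
        rw [if_pos h]
        have := h.2
        omega
      simp only [h1]
      exact dvd_of_unitRank hA hv hQ σ j hjn.le h.1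
    · simp only [if_neg h, add_zero]
      exact (hA.isMazur v hv Q hQ σ).1 j hjn.le
  · rw [not_lt] at hno
    have h4 : ∑ σ : A.E →+* AlgebraicClosure K, ((j - A.r σ) + (if σ ∈ failing A v Q j then 1 else 0)) =
        ∑ σ : A.E →+* AlgebraicClosure K, (j - A.r σ) + (failing A v Q j).ncard := by
      rw [Finset.sum_add_distrib]
      congr 1
      rw [Finset.sum_ite, Finset.sum_const_zero, add_zero, Finset.sum_const, smul_eq_mul, mul_one,
        ← Set.ncard_coe_finset]
      congr 1
      ext σ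
      simp
    rw [h4]
    unfold hodgeDefect at hno
    rw [Finset.sum_sub_distrib, Finset.sum_const, Finset.card_univ, NumberField.Embeddings.card,
      nsmul_eq_mul, ← Finset.mul_sum] at hno
    zify
    rw [mul_comm]
    push_cast at hno ⊢
    linarith

end

end Pool.Agent.TH30.Ord
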